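import Mathlib

/-!
# Airy type integrals along two rays do not vanish (MP_cdc1ee, helper22)
-/

namespace Pool.Agent.Shadow22

open MeasureTheory Set Filter Topology

noncomputable section

/-- The Airy type integrand. -/
def fA (b : ℝ) (l t : ℂ) : ℂ := Complex.exp ((b : ℂ) * t ^ 3 - l * t)

/-- The integral of the Airy type integrand along a ray. -/
def RA (b : ℝ) (l s V : ℂ) : ℂ := ∫ r in Ioi (0 : ℝ), fA b l (s + V * r) * V

lemma sq_le_cube_add (k c r : ℝ) (hk : 0 ≤ k) (hc : 0 < c) (hr : 0 ≤ r) :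
    k * r ^ 2 ≤ c * r ^ 3 + k ^ 3 / c ^ 2 := by
  rcases le_total (k / c) r with h | h
  · have h1 : k ≤ c * r := by rw [div_le_iff₀ hc] at h; linarith
    have h2 : 0 ≤ k ^ 3 / c ^ 2 := by positivity
    have h3 : k * r ^ 2 ≤ (c * r) * r ^ 2 := mul_le_mul_of_nonneg_right h1 (by positivity)
    nlinarith
  · have h2 : 0 ≤ c * r ^ 3 := by positivity
    have h3 : r ^ 2 ≤ (k / c) ^ 2 := pow_le_pow_left₀ hr h 2
    have h4 : k * r ^ 2 ≤ k * (k / c) ^ 2 := mul_le_mul_of_nonneg_left h3 hk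
    have h5 : k * (k / c) ^ 2 = k ^ 3 / c ^ 2 := by field_simp
    linarith

lemma bd (b c M : ℝ) (hb : 0 < b) (hc : 0 < c) (hM : 0 ≤ M) :
    ∃ C : ℝ, 0 < C ∧ ∀ s l V : ℂ, ‖s‖ ≤ M → ‖l‖ ≤ M → ‖V‖ ≤ M → (V ^ 3).re ≤ -c →
      ∀ r : ℝ, 0 ≤ r → ‖fA b l (s + V * r)‖ ≤ C * Real.exp (-4 * r) := by
  set K : ℝ := 3 * b * M ^ 3 + M ^ 2 + 4 with hK
  have hK0 : 0 ≤ K := by positivity
  refine ⟨Real.exp (2 * K + (2 * K) ^ 3 / (b * c) ^ 2), Real.exp_pos _, ?_⟩
  intro s l V hs hl hV hV3 r hr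
  rw [fA, Complex.norm_exp, ← Real.exp_add, Real.exp_le_exp]
  have e1 : (((b : ℂ) * (s + V * r) ^ 3 - l * (s + V * r))).re
      = b * ((s ^ 3).re + 3 * r * (s ^ 2 * V).re + 3 * r ^ 2 * (s * V ^ 2).re + r ^ 3 * (V ^ 3).re)
        - (l * s).re - r * (l * V).re := by
    have : ((b : ℂ) * (s + V * r) ^ 3 - l * (s + V * r))
      = (b : ℂ) * (s ^ 3 + ((3 * r : ℝ) : ℂ) * (s ^ 2 * V) + ((3 * r ^ 2 : ℝ) : ℂ) * (s * V ^ 2)
        + ((r ^ 3 : ℝ) : ℂ) * (V ^ 3)) - l * s - (r : ℂ) * (l * V) := by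
      push_cast; ring
    rw [this]
    simp only [Complex.sub_re, Complex.re_ofReal_mul, Complex.add_re]
  rw [e1]
  have n1 : (s ^ 3).re ≤ M ^ 3 := by
    calc (s ^ 3).re ≤ ‖s ^ 3‖ := Complex.re_le_norm _
      _ = ‖s‖ ^ 3 := norm_pow _ _
      _ ≤ M ^ 3 := pow_le_pow_left₀ (norm_nonneg _) hs 3
  have n2 : (s ^ 2 * V).re ≤ M ^ 3 := by
    calc (s ^ 2 * V).re ≤ ‖s ^ 2 * V‖ := Complex.re_le_norm _
      _ = ‖s‖ ^ 2 * ‖V‖ := by rw [norm_mul, norm_pow]
      _ ≤ M ^ 2 * M := mul_le_mul (pow_le_pow_left₀ (norm_nonneg _) hs 2) hV (norm_nonneg _)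
          (by positivity)
      _ = M ^ 3 := by ring
  have n3 : (s * V ^ 2).re ≤ M ^ 3 := by
    calc (s * V ^ 2).re ≤ ‖s * V ^ 2‖ := Complex.re_le_norm _
      _ = ‖s‖ * ‖V‖ ^ 2 := by rw [norm_mul, norm_pow]
      _ ≤ M * M ^ 2 := mul_le_mul hs (pow_le_pow_left₀ (norm_nonneg _) hV 2) (by positivity) hM
      _ = M ^ 3 := by ring
  have n4 : -(l * s).re ≤ M ^ 2 := by
    calc -(l * s).re ≤ |(l * s).re| := neg_le_abs _
      _ ≤ ‖l * s‖ := Complex.abs_re_le_norm _
      _ = ‖l‖ * ‖s‖ := norm_mul _ _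
      _ ≤ M * M := mul_le_mul hl hs (norm_nonneg _) hM
      _ = M ^ 2 := by ring
  have n5 : -(l * V).re ≤ M ^ 2 := by
    calc -(l * V).re ≤ |(l * V).re| := neg_le_abs _
      _ ≤ ‖l * V‖ := Complex.abs_re_le_norm _
      _ = ‖l‖ * ‖V‖ := norm_mul _ _
      _ ≤ M * M := mul_le_mul hl hV (norm_nonneg _) hM
      _ = M ^ 2 := by ring
  have hbc : 0 < b * c := mul_pos hb hc
  have q := sq_le_cube_add (2 * K) (b * c) r (by positivity) hbc hr
  have hr2 : 0 ≤ r ^ 2 := by positivity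
  have hr3 : 0 ≤ r ^ 3 := by positivity
  have m1 : b * ((s ^ 3).re + 3 * r * (s ^ 2 * V).re + 3 * r ^ 2 * (s * V ^ 2).re
      + r ^ 3 * (V ^ 3).re) ≤ b * (M ^ 3 + 3 * r * M ^ 3 + 3 * r ^ 2 * M ^ 3 + r ^ 3 * (-c)) := by
    apply mul_le_mul_of_nonneg_left _ hb.le
    have a1 : 3 * r * (s ^ 2 * V).re ≤ 3 * r * M ^ 3 := mul_le_mul_of_nonneg_left n2 (by positivity)
    have a2 : 3 * r ^ 2 * (s * V ^ 2).re ≤ 3 * r ^ 2 * M ^ 3 :=
      mul_le_mul_of_nonneg_left n3 (by positivity)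
    have a3 : r ^ 3 * (V ^ 3).re ≤ r ^ 3 * (-c) := mul_le_mul_of_nonneg_left hV3 hr3
    linarith
  have m2 : -(r * (l * V).re) ≤ r * M ^ 2 := by
    have := mul_le_mul_of_nonneg_left n5 hr
    linarith
  have k1 : b * M ^ 3 + M ^ 2 ≤ K := by
    have : 0 ≤ b * M ^ 3 := by positivity
    rw [hK]; linarith
  have k3 : 3 * b * M ^ 3 ≤ K := by
    have : 0 ≤ M ^ 2 := by positivity
    rw [hK]; linarith
  have k4 : r * (3 * b * M ^ 3 + M ^ 2 + 4) ≤ r * K := le_of_eq (by rw [hK])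
  have k5 : r ^ 2 * (3 * b * M ^ 3) ≤ r ^ 2 * K := mul_le_mul_of_nonneg_left k3 hr2
  have k6 : r * K ≤ (1 + r ^ 2) * K := by
    apply mul_le_mul_of_nonneg_right _ hK0
    nlinarith [sq_nonneg (r - 1)]
  nlinarith

lemma bdp (b c M : ℝ) (hb : 0 < b) (hc : 0 < c) (hM : 0 ≤ M) :
    ∃ C : ℝ, 0 < C ∧ ∀ s l V : ℂ, ‖s‖ ≤ M → ‖l‖ ≤ M → ‖V‖ ≤ M → (V ^ 3).re ≤ -c →
      ∀ r : ℝ, 0 ≤ r → (1 + ‖s + V * r‖) ^ 2 * (1 + r) * ‖fA b l (s + V * r)‖
        ≤ C * Real.exp (-1 * r) := by
  obtain ⟨C, hC, h⟩ := bd b c M hb hc hM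
  refine ⟨(1 + M) ^ 2 * C, by positivity, ?_⟩
  intro s l V hs hl hV hV3 r hr
  have h0 := h s l V hs hl hV hV3 r hr
  have h1' : 1 + r ≤ Real.exp r := by linarith [Real.add_one_le_exp r]
  have h1 : 1 + ‖s + V * r‖ ≤ (1 + M) * Real.exp r := by
    have : ‖s + V * r‖ ≤ M + M * r := by
      calc ‖s + V * r‖ ≤ ‖s‖ + ‖V * r‖ := norm_add_le _ _
        _ = ‖s‖ + ‖V‖ * r := by rw [norm_mul, Complex.norm_real, Real.norm_of_nonneg hr]
        _ ≤ M + M * r := add_le_add hs (mul_le_mul_of_nonneg_right hV hr)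
    calc 1 + ‖s + V * r‖ ≤ (1 + M) * (1 + r) := by nlinarith
      _ ≤ (1 + M) * Real.exp r := mul_le_mul_of_nonneg_left h1' (by positivity)
  have h2 : (1 + ‖s + V * r‖) ^ 2 ≤ (1 + M) ^ 2 * Real.exp r ^ 2 := by
    rw [← mul_pow]
    exact pow_le_pow_left₀ (by positivity) h1 2
  have h3 : (1 + ‖s + V * r‖) ^ 2 * (1 + r) ≤ (1 + M) ^ 2 * Real.exp r ^ 2 * Real.exp r :=
    mul_le_mul h2 h1' (by linarith) (by positivity)
  have h4 : (1 + M) ^ 2 * Real.exp r ^ 2 * Real.exp r = (1 + M) ^ 2 * Real.exp (3 * r) := by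
    have : Real.exp (3 * r) = Real.exp r ^ 3 := by
      rw [← Real.exp_nat_mul]; norm_num
    rw [this]; ring
  rw [h4] at h3
  calc (1 + ‖s + V * r‖) ^ 2 * (1 + r) * ‖fA b l (s + V * r)‖
      ≤ ((1 + M) ^ 2 * Real.exp (3 * r)) * (C * Real.exp (-4 * r)) :=
        mul_le_mul h3 h0 (norm_nonneg _) (by positivity)
    _ = (1 + M) ^ 2 * C * (Real.exp (3 * r) * Real.exp (-4 * r)) := by ring
    _ = (1 + M) ^ 2 * C * Real.exp (-1 * r) := by rw [← Real.exp_add]; ring_nf

lemma intg {f : ℝ → ℂ} (hf : Continuous f) (C : ℝ)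
    (h : ∀ r : ℝ, 0 ≤ r → ‖f r‖ ≤ C * Real.exp (-1 * r)) : IntegrableOn f (Ioi 0) := by
  have h1 : IntegrableOn (fun r : ℝ => C * Real.exp (-1 * r)) (Ioi 0) :=
    (exp_neg_integrableOn_Ioi 0 one_pos).const_mul C
  refine Integrable.mono' h1 hf.aestronglyMeasurable ?_
  refine (ae_restrict_iff' measurableSet_Ioi).2 (Eventually.of_forall fun r hr => ?_)
  exact h r (le_of_lt hr)

lemma tend0 {f : ℝ → ℂ} (C : ℝ)
    (h : ∀ r : ℝ, 0 ≤ r → ‖f r‖ ≤ C * Real.exp (-1 * r)) : Tendsto f atTop (𝓝 0) := by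
  refine squeeze_zero_norm' (a := fun r : ℝ => C * Real.exp (-1 * r)) ?_ ?_
  · filter_upwards [eventually_ge_atTop (0 : ℝ)] with r hr using h r hr
  · have : Tendsto (fun r : ℝ => Real.exp (-1 * r)) atTop (𝓝 0) := by
      have h2 : Tendsto (fun r : ℝ => (-1 : ℝ) * r) atTop atBot :=
        tendsto_id.const_mul_atTop_of_neg (by norm_num)
      exact Real.tendsto_exp_atBot.comp h2
    simpa using this.const_mul C

lemma cont_fA (b : ℝ) (l s V : ℂ) : Continuous (fun r : ℝ => fA b l (s + V * r)) := by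
  unfold fA; fun_prop

/-- the derivative of the integrand with respect to `t` -/
lemma deriv_fA (b : ℝ) (l t : ℂ) : HasDerivAt (fA b l) ((3 * b * t ^ 2 - l) * fA b l t) t := by
  have h1 : HasDerivAt (fun t : ℂ => (b : ℂ) * t ^ 3 - l * t) ((b : ℂ) * (3 * t ^ 2) - l * 1) t := by
    have := ((hasDerivAt_pow 3 t).const_mul (b : ℂ)).sub ((hasDerivAt_id t).const_mul l)
    convert! this using 1
  have h2 := h1.cexp
  unfold fA
  convert! h2 using 1
  ring

lemma deriv_ray (b : ℝ) (l s V : ℂ) (r : ℝ) : HasDerivAt (fun r : ℝ => fA b l (s + V * r))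
    ((3 * b * (s + V * r) ^ 2 - l) * fA b l (s + V * r) * V) r := by
  have h1 : HasDerivAt (fun z : ℂ => fA b l (s + V * z))
      ((3 * b * (s + V * r) ^ 2 - l) * fA b l (s + V * r) * V) (r : ℂ) := by
    have h2 : HasDerivAt (fun z : ℂ => s + V * z) V (r : ℂ) := by
      simpa using ((hasDerivAt_id (r : ℂ)).const_mul V).const_add s
    exact HasDerivAt.comp (h₂ := fA b l) (h := fun z : ℂ => s + V * z) (r : ℂ)
      (deriv_fA b l (s + V * r)) h2
  exact h1.comp_ofReal

/-- All the integrability facts at one parameter value. -/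
lemma bdp_at (b : ℝ) (l s V : ℂ) (hb : 0 < b) (hV : (V ^ 3).re < 0) :
    ∃ C : ℝ, 0 < C ∧ ∃ ε : ℝ, 0 < ε ∧ ∀ s' l' V' : ℂ, s' ∈ Metric.ball s ε → l' ∈ Metric.ball l ε →
      V' ∈ Metric.ball V ε → ∀ r : ℝ, 0 ≤ r →
      (1 + ‖s' + V' * r‖) ^ 2 * (1 + r) * ‖fA b l' (s' + V' * r)‖ ≤ C * Real.exp (-1 * r) := by
  have hc : Continuous (fun W : ℂ => (W ^ 3).re) := by fun_prop
  have hmem : {W : ℂ | (W ^ 3).re < (V ^ 3).re / 2} ∈ 𝓝 V :=
    (isOpen_lt hc continuous_const).mem_nhds (by simp only [mem_ofPred_eq]; linarith)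
  obtain ⟨δ, hδ, hball⟩ := Metric.mem_nhds_iff.1 hmem
  obtain ⟨C, hC, h⟩ := bdp b (-(V ^ 3).re / 2) (‖s‖ + ‖l‖ + ‖V‖ + 1) hb (by linarith) (by positivity)
  refine ⟨C, hC, min δ 1, lt_min hδ one_pos, ?_⟩
  intro s' l' V' hs' hl' hV' r hr
  have key : ∀ x y : ℂ, x ∈ Metric.ball y (min δ 1) → ‖x‖ ≤ ‖y‖ + 1 := by
    intro x y hx
    have h1 : dist x y < 1 := lt_of_lt_of_le hx (min_le_right _ _)
    rw [dist_eq_norm] at h1
    have := norm_le_norm_add_norm_sub' x y
    linarith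
  have k1 := key _ _ hs'
  have k2 := key _ _ hl'
  have k3 := key _ _ hV'
  have n1 := norm_nonneg s
  have n2 := norm_nonneg l
  have n3 := norm_nonneg V
  refine h s' l' V' (by linarith) (by linarith) (by linarith) ?_ r hr
  have : V' ∈ {W : ℂ | (W ^ 3).re < (V ^ 3).re / 2} :=
    hball (Metric.ball_subset_ball (min_le_left _ _) hV')
  simp only [mem_ofPred_eq] at this
  linarith

/-- consequences of the weighted bound -/
lemma cons {N r F C E : ℝ} (hN : 0 ≤ N) (hr : 0 ≤ r) (hF : 0 ≤ F)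
    (h : (1 + N) ^ 2 * (1 + r) * F ≤ C * E) :
    F ≤ C * E ∧ N * F ≤ C * E ∧ N ^ 2 * F ≤ C * E ∧ r * N ^ 2 * F ≤ C * E ∧ r * F ≤ C * E := by
  have a0 : 0 ≤ N * F := by positivity
  have a1 : 0 ≤ N ^ 2 * F := by positivity
  have a2 : 0 ≤ r * N ^ 2 * F := by positivity
  have a3 : 0 ≤ r * F := by positivity
  have a4 : 0 ≤ r * N * F := by positivity
  have e : (1 + N) ^ 2 * (1 + r) * F = F + 2 * (N * F) + N ^ 2 * F + r * F + 2 * (r * N * F)
      + r * N ^ 2 * F := by ring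
  rw [e] at h
  refine ⟨by linarith, by linarith, by linarith, by linarith, by linarith⟩

lemma int_f (b : ℝ) (l s V : ℂ) (hb : 0 < b) (hV : (V ^ 3).re < 0) :
    IntegrableOn (fun r : ℝ => fA b l (s + V * r) * V) (Ioi 0) ∧
    IntegrableOn (fun r : ℝ => (s + V * r) * fA b l (s + V * r) * V) (Ioi 0) ∧
    IntegrableOn (fun r : ℝ => (s + V * r) ^ 2 * fA b l (s + V * r) * V) (Ioi 0) := by
  obtain ⟨C, hC, ε, hε, h⟩ := bdp_at b l s V hb hV
  have h' := h s l V (Metric.mem_ball_self hε) (Metric.mem_ball_self hε) (Metric.mem_ball_self hε)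
  have hcf := cont_fA b l s V
  have hcs : Continuous (fun r : ℝ => s + V * (r : ℂ)) := by fun_prop
  refine ⟨intg (hcf.mul continuous_const) (C * ‖V‖) fun r hr => ?_,
    intg ((hcs.mul hcf).mul continuous_const) (C * ‖V‖) fun r hr => ?_,
    intg (((hcs.pow 2).mul hcf).mul continuous_const) (C * ‖V‖) fun r hr => ?_⟩
  all_goals
    obtain ⟨c1, c2, c3, c4, c5⟩ := cons (norm_nonneg _) hr (norm_nonneg _) (h' r hr)
    simp only [norm_mul, norm_pow]
  · calc _ ≤ (C * Real.exp (-1 * r)) * ‖V‖ := mul_le_mul_of_nonneg_right c1 (norm_nonneg _)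
      _ = _ := by ring
  · calc _ ≤ (C * Real.exp (-1 * r)) * ‖V‖ := mul_le_mul_of_nonneg_right c2 (norm_nonneg _)
      _ = _ := by ring
  · calc _ ≤ (C * Real.exp (-1 * r)) * ‖V‖ := mul_le_mul_of_nonneg_right c3 (norm_nonneg _)
      _ = _ := by ring

/-- first fundamental theorem along the ray -/
lemma ftc_ray (b : ℝ) (l s V : ℂ) (hb : 0 < b) (hV : (V ^ 3).re < 0) :
    ∫ r in Ioi (0 : ℝ), (3 * b * (s + V * r) ^ 2 - l) * fA b l (s + V * r) * V = - fA b l s := by
  obtain ⟨C, hC, ε, hε, h⟩ := bdp_at b l s V hb hV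
  have h' := h s l V (Metric.mem_ball_self hε) (Metric.mem_ball_self hε) (Metric.mem_ball_self hε)
  obtain ⟨i0, i1, i2⟩ := int_f b l s V hb hV
  have hI : IntegrableOn (fun r : ℝ => (3 * b * (s + V * r) ^ 2 - l) * fA b l (s + V * r) * V)
      (Ioi 0) := by
    have h3 : IntegrableOn (fun r : ℝ => 3 * (b : ℂ) * ((s + V * r) ^ 2 * fA b l (s + V * r) * V)
        - l * (fA b l (s + V * r) * V)) (Ioi 0) :=
      Integrable.sub (i2.const_mul (3 * (b : ℂ))) (i0.const_mul l)
    refine h3.congr_fun (fun r _ => ?_) measurableSet_Ioi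
    ring
  have ht : Tendsto (fun r : ℝ => fA b l (s + V * r)) atTop (𝓝 0) := by
    refine tend0 C fun r hr => ?_
    obtain ⟨c1, c2, c3, c4, c5⟩ := cons (norm_nonneg _) hr (norm_nonneg _) (h' r hr)
    exact c1
  have := integral_Ioi_of_hasDerivAt_of_tendsto' (a := 0) (f := fun r : ℝ => fA b l (s + V * r))
    (fun r _ => deriv_ray b l s V r) hI ht
  rw [this]
  simp

/-- the derivative of the ray integral with respect to the vertex -/
lemma deriv_vertex (b : ℝ) (l s V : ℂ) (hb : 0 < b) (hV : (V ^ 3).re < 0) :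
    HasDerivAt (fun s : ℂ => RA b l s V) (- fA b l s) s := by
  obtain ⟨C, hC, ε, hε, h⟩ := bdp_at b l s V hb hV
  have key := hasDerivAt_integral_of_dominated_loc_of_deriv_le (𝕜 := ℂ)
    (μ := volume.restrict (Ioi (0 : ℝ))) (x₀ := s) (s := Metric.ball s ε)
    (F := fun (s : ℂ) (r : ℝ) => fA b l (s + V * r) * V)
    (F' := fun (s : ℂ) (r : ℝ) => (3 * b * (s + V * r) ^ 2 - l) * fA b l (s + V * r) * V)
    (bound := fun r : ℝ => ((3 * b + ‖l‖) * C * ‖V‖) * Real.exp (-1 * r))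
    (Metric.ball_mem_nhds s hε)
    (Eventually.of_forall fun s' => ((cont_fA b l s' V).mul continuous_const).aestronglyMeasurable)
    (int_f b l s V hb hV).1
    (by
      have hcs : Continuous (fun r : ℝ => s + V * (r : ℂ)) := by fun_prop
      exact ((((continuous_const.mul (hcs.pow 2)).sub continuous_const).mul
        (cont_fA b l s V)).mul continuous_const).aestronglyMeasurable)
    (by
      refine (ae_restrict_iff' measurableSet_Ioi).2 (Eventually.of_forall fun r hr s' hs' => ?_)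
      have hr' : (0 : ℝ) ≤ r := le_of_lt hr
      obtain ⟨c1, c2, c3, c4, c5⟩ := cons (norm_nonneg _) hr' (norm_nonneg _)
        (h s' l V hs' (Metric.mem_ball_self hε) (Metric.mem_ball_self hε) r hr')
      have e1 : ‖(3 * (b : ℂ) * (s' + V * r) ^ 2 - l)‖ ≤ 3 * b * ‖s' + V * r‖ ^ 2 + ‖l‖ := by
        refine (norm_sub_le _ _).trans ?_
        rw [norm_mul, norm_mul, norm_pow, Complex.norm_real, Real.norm_of_nonneg hb.le]
        norm_num
      rw [norm_mul, norm_mul]
      calc ‖(3 * (b : ℂ) * (s' + V * r) ^ 2 - l)‖ * ‖fA b l (s' + V * r)‖ * ‖V‖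
          ≤ (3 * b * ‖s' + V * r‖ ^ 2 + ‖l‖) * ‖fA b l (s' + V * r)‖ * ‖V‖ := by gcongr
        _ = (3 * b * (‖s' + V * r‖ ^ 2 * ‖fA b l (s' + V * r)‖)
              + ‖l‖ * ‖fA b l (s' + V * r)‖) * ‖V‖ := by ring
        _ ≤ (3 * b * (C * Real.exp (-1 * r)) + ‖l‖ * (C * Real.exp (-1 * r))) * ‖V‖ := by gcongr
        _ = ((3 * b + ‖l‖) * C * ‖V‖) * Real.exp (-1 * r) := by ring)
    ((exp_neg_integrableOn_Ioi 0 one_pos).const_mul _)
    (by
      refine Eventually.of_forall fun r s' _ => ?_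
      have h2 : HasDerivAt (fun z : ℂ => z + V * r) 1 s' := (hasDerivAt_id s').add_const _
      have h3 := HasDerivAt.comp (h₂ := fA b l) (h := fun z : ℂ => z + V * r) s'
        (deriv_fA b l (s' + V * r)) h2
      have h4 := h3.mul_const V
      rw [mul_one] at h4
      exact h4)
  have h2 := key.2
  rw [ftc_ray b l s V hb hV] at h2
  exact h2

/-- first moment -/
def RA1 (b : ℝ) (l s V : ℂ) : ℂ := ∫ r in Ioi (0 : ℝ), (s + V * r) * fA b l (s + V * r) * V

/-- second moment -/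
def RA2 (b : ℝ) (l s V : ℂ) : ℂ := ∫ r in Ioi (0 : ℝ), (s + V * r) ^ 2 * fA b l (s + V * r) * V

lemma ode_ray (b : ℝ) (l s V : ℂ) (hb : 0 < b) (hV : (V ^ 3).re < 0) :
    3 * b * RA2 b l s V - l * RA b l s V = - fA b l s := by
  rw [← ftc_ray b l s V hb hV, RA2, RA, ← integral_const_mul, ← integral_const_mul]
  obtain ⟨i0, i1, i2⟩ := int_f b l s V hb hV
  rw [← integral_sub (i2.const_mul _) (i0.const_mul _)]
  refine integral_congr_ae (Eventually.of_forall fun r => ?_)
  ring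

lemma deriv_l_fA (b : ℝ) (l t : ℂ) : HasDerivAt (fun l => fA b l t) (- t * fA b l t) l := by
  have h1 : HasDerivAt (fun l : ℂ => (b : ℂ) * t ^ 3 - l * t) (- t) l := by
    have := ((hasDerivAt_id l).mul_const t).const_sub ((b : ℂ) * t ^ 3)
    convert! this using 1
    simp
  have h2 := h1.cexp
  unfold fA
  convert! h2 using 1
  ring

lemma deriv_l (b : ℝ) (l s V : ℂ) (hb : 0 < b) (hV : (V ^ 3).re < 0) :
    HasDerivAt (fun l : ℂ => RA b l s V) (- RA1 b l s V) l := by
  obtain ⟨C, hC, ε, hε, h⟩ := bdp_at b l s V hb hV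
  have hcs : Continuous (fun r : ℝ => s + V * (r : ℂ)) := by fun_prop
  have key := hasDerivAt_integral_of_dominated_loc_of_deriv_le (𝕜 := ℂ)
    (μ := volume.restrict (Ioi (0 : ℝ))) (x₀ := l) (s := Metric.ball l ε)
    (F := fun (l : ℂ) (r : ℝ) => fA b l (s + V * r) * V)
    (F' := fun (l : ℂ) (r : ℝ) => -(s + V * r) * fA b l (s + V * r) * V)
    (bound := fun r : ℝ => (C * ‖V‖) * Real.exp (-1 * r))
    (Metric.ball_mem_nhds l hε)
    (Eventually.of_forall fun l' => ((cont_fA b l' s V).mul continuous_const).aestronglyMeasurable)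
    (int_f b l s V hb hV).1
    (((hcs.neg.mul (cont_fA b l s V)).mul continuous_const).aestronglyMeasurable)
    (by
      refine (ae_restrict_iff' measurableSet_Ioi).2 (Eventually.of_forall fun r hr l' hl' => ?_)
      have hr' : (0 : ℝ) ≤ r := le_of_lt hr
      obtain ⟨c1, c2, c3, c4, c5⟩ := cons (norm_nonneg _) hr' (norm_nonneg _)
        (h s l' V (Metric.mem_ball_self hε) hl' (Metric.mem_ball_self hε) r hr')
      rw [norm_mul, norm_mul, norm_neg]
      calc ‖s + V * r‖ * ‖fA b l' (s + V * r)‖ * ‖V‖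
          ≤ (C * Real.exp (-1 * r)) * ‖V‖ := mul_le_mul_of_nonneg_right c2 (norm_nonneg _)
        _ = (C * ‖V‖) * Real.exp (-1 * r) := by ring)
    ((exp_neg_integrableOn_Ioi 0 one_pos).const_mul _)
    (by
      refine Eventually.of_forall fun r l' _ => ?_
      exact (deriv_l_fA b l' (s + V * r)).mul_const V)
  have h2 := key.2
  have e : (∫ r in Ioi (0 : ℝ), -(s + V * r) * fA b l (s + V * r) * V) = - RA1 b l s V := by
    rw [RA1, ← integral_neg]
    refine integral_congr_ae (Eventually.of_forall fun r => ?_)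
    simp only
    ring
  rw [e] at h2
  exact h2

lemma deriv_l1 (b : ℝ) (l s V : ℂ) (hb : 0 < b) (hV : (V ^ 3).re < 0) :
    HasDerivAt (fun l : ℂ => RA1 b l s V) (- RA2 b l s V) l := by
  obtain ⟨C, hC, ε, hε, h⟩ := bdp_at b l s V hb hV
  have hcs : Continuous (fun r : ℝ => s + V * (r : ℂ)) := by fun_prop
  have key := hasDerivAt_integral_of_dominated_loc_of_deriv_le (𝕜 := ℂ)
    (μ := volume.restrict (Ioi (0 : ℝ))) (x₀ := l) (s := Metric.ball l ε)
    (F := fun (l : ℂ) (r : ℝ) => (s + V * r) * fA b l (s + V * r) * V)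
    (F' := fun (l : ℂ) (r : ℝ) => -(s + V * r) ^ 2 * fA b l (s + V * r) * V)
    (bound := fun r : ℝ => (C * ‖V‖) * Real.exp (-1 * r))
    (Metric.ball_mem_nhds l hε)
    (Eventually.of_forall fun l' =>
      ((hcs.mul (cont_fA b l' s V)).mul continuous_const).aestronglyMeasurable)
    (int_f b l s V hb hV).2.1
    ((((hcs.pow 2).neg.mul (cont_fA b l s V)).mul continuous_const).aestronglyMeasurable)
    (by
      refine (ae_restrict_iff' measurableSet_Ioi).2 (Eventually.of_forall fun r hr l' hl' => ?_)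
      have hr' : (0 : ℝ) ≤ r := le_of_lt hr
      obtain ⟨c1, c2, c3, c4, c5⟩ := cons (norm_nonneg _) hr' (norm_nonneg _)
        (h s l' V (Metric.mem_ball_self hε) hl' (Metric.mem_ball_self hε) r hr')
      rw [norm_mul, norm_mul, norm_neg, norm_pow]
      calc ‖s + V * r‖ ^ 2 * ‖fA b l' (s + V * r)‖ * ‖V‖
          ≤ (C * Real.exp (-1 * r)) * ‖V‖ := mul_le_mul_of_nonneg_right c3 (norm_nonneg _)
        _ = (C * ‖V‖) * Real.exp (-1 * r) := by ring)
    ((exp_neg_integrableOn_Ioi 0 one_pos).const_mul _)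
    (by
      refine Eventually.of_forall fun r l' _ => ?_
      have := ((deriv_l_fA b l' (s + V * r)).const_mul (s + V * r)).mul_const V
      convert! this using 1
      ring)
  have h2 := key.2
  have e : (∫ r in Ioi (0 : ℝ), -(s + V * r) ^ 2 * fA b l (s + V * r) * V) = - RA2 b l s V := by
    rw [RA2, ← integral_neg]
    refine integral_congr_ae (Eventually.of_forall fun r => ?_)
    simp only
    ring
  rw [e] at h2
  exact h2

/-- the ray integral does not depend on the direction inside a valley (infinitesimal form) -/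
lemma deriv_dir (b : ℝ) (l s V : ℂ) (hb : 0 < b) (hV : (V ^ 3).re < 0) :
    HasDerivAt (fun V : ℂ => RA b l s V) 0 V := by
  obtain ⟨C, hC, ε, hε, h⟩ := bdp_at b l s V hb hV
  have hcs : Continuous (fun r : ℝ => s + V * (r : ℂ)) := by fun_prop
  have hcr : Continuous (fun r : ℝ => (r : ℂ)) := by fun_prop
  have key := hasDerivAt_integral_of_dominated_loc_of_deriv_le (𝕜 := ℂ)
    (μ := volume.restrict (Ioi (0 : ℝ))) (x₀ := V) (s := Metric.ball V ε)
    (F := fun (V : ℂ) (r : ℝ) => fA b l (s + V * r) * V)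
    (F' := fun (V : ℂ) (r : ℝ) =>
      (r : ℂ) * (3 * b * (s + V * r) ^ 2 - l) * fA b l (s + V * r) * V + fA b l (s + V * r))
    (bound := fun r : ℝ => (((3 * b + ‖l‖) * C * (‖V‖ + ε)) + C) * Real.exp (-1 * r))
    (Metric.ball_mem_nhds V hε)
    (Eventually.of_forall fun V' => ((cont_fA b l s V').mul continuous_const).aestronglyMeasurable)
    (int_f b l s V hb hV).1
    (((((hcr.mul ((continuous_const.mul (hcs.pow 2)).sub continuous_const)).mul
        (cont_fA b l s V)).mul continuous_const).add (cont_fA b l s V)).aestronglyMeasurable)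
    (by
      refine (ae_restrict_iff' measurableSet_Ioi).2 (Eventually.of_forall fun r hr V' hV' => ?_)
      have hr' : (0 : ℝ) ≤ r := le_of_lt hr
      obtain ⟨c1, c2, c3, c4, c5⟩ := cons (norm_nonneg _) hr' (norm_nonneg _)
        (h s l V' (Metric.mem_ball_self hε) (Metric.mem_ball_self hε) hV' r hr')
      have nV : ‖V'‖ ≤ ‖V‖ + ε := by
        have h1 : dist V' V < ε := hV'
        rw [dist_eq_norm] at h1
        have := norm_le_norm_add_norm_sub' V' V
        linarith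
      have e1 : ‖(3 * (b : ℂ) * (s + V' * r) ^ 2 - l)‖ ≤ 3 * b * ‖s + V' * r‖ ^ 2 + ‖l‖ := by
        refine (norm_sub_le _ _).trans ?_
        rw [norm_mul, norm_mul, norm_pow, Complex.norm_real, Real.norm_of_nonneg hb.le]
        norm_num
      refine (norm_add_le _ _).trans ?_
      rw [norm_mul, norm_mul, norm_mul, Complex.norm_real, Real.norm_of_nonneg hr']
      have e2 : r * ‖(3 * (b : ℂ) * (s + V' * r) ^ 2 - l)‖ * ‖fA b l (s + V' * r)‖ * ‖V'‖
          ≤ ((3 * b + ‖l‖) * C * (‖V‖ + ε)) * Real.exp (-1 * r) := by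
        calc r * ‖(3 * (b : ℂ) * (s + V' * r) ^ 2 - l)‖ * ‖fA b l (s + V' * r)‖ * ‖V'‖
            ≤ r * (3 * b * ‖s + V' * r‖ ^ 2 + ‖l‖) * ‖fA b l (s + V' * r)‖ * (‖V‖ + ε) := by
              gcongr
          _ = (3 * b * (r * ‖s + V' * r‖ ^ 2 * ‖fA b l (s + V' * r)‖)
                + ‖l‖ * (r * ‖fA b l (s + V' * r)‖)) * (‖V‖ + ε) := by ring
          _ ≤ (3 * b * (C * Real.exp (-1 * r)) + ‖l‖ * (C * Real.exp (-1 * r))) * (‖V‖ + ε) := by
              gcongr
          _ = ((3 * b + ‖l‖) * C * (‖V‖ + ε)) * Real.exp (-1 * r) := by ring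
      calc _ ≤ ((3 * b + ‖l‖) * C * (‖V‖ + ε)) * Real.exp (-1 * r) + C * Real.exp (-1 * r) :=
            add_le_add e2 c1
        _ = _ := by ring)
    ((exp_neg_integrableOn_Ioi 0 one_pos).const_mul _)
    (by
      refine Eventually.of_forall fun r V' _ => ?_
      have h2 : HasDerivAt (fun z : ℂ => s + z * r) (r : ℂ) V' := by
        simpa using ((hasDerivAt_id V').mul_const (r : ℂ)).const_add s
      have h3 := HasDerivAt.comp (h₂ := fA b l) (h := fun z : ℂ => s + z * r) V'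
        (deriv_fA b l (s + V' * r)) h2
      have h4 := h3.mul (hasDerivAt_id V')
      convert! h4 using 1
      simp only [Function.comp, id]
      ring)
  have h2 := key.2
  have hr' : ∀ r : ℝ, HasDerivAt (fun r : ℝ => (r : ℂ) * fA b l (s + V * r))
      ((r : ℂ) * (3 * b * (s + V * r) ^ 2 - l) * fA b l (s + V * r) * V
        + fA b l (s + V * r)) r := by
    intro r
    have h3 : HasDerivAt (fun r : ℝ => (r : ℂ)) 1 r := Complex.ofRealCLM.hasDerivAt
    have h4 := h3.mul (deriv_ray b l s V r)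
    convert! h4 using 1
    ring
  have ht : Tendsto (fun r : ℝ => (r : ℂ) * fA b l (s + V * r)) atTop (𝓝 0) := by
    refine tend0 C fun r hr => ?_
    obtain ⟨c1, c2, c3, c4, c5⟩ := cons (norm_nonneg _) hr (norm_nonneg _)
      (h s l V (Metric.mem_ball_self hε) (Metric.mem_ball_self hε) (Metric.mem_ball_self hε) r hr)
    rw [norm_mul, Complex.norm_real, Real.norm_of_nonneg hr]
    exact c5
  have e := integral_Ioi_of_hasDerivAt_of_tendsto' (a := 0) (fun r _ => hr' r) key.1 ht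
  have e' : (∫ r in Ioi (0 : ℝ), ((r : ℂ) * (3 * b * (s + V * r) ^ 2 - l) * fA b l (s + V * r) * V
        + fA b l (s + V * r))) = 0 := by
    rw [e]; simp
  rw [e'] at h2
  exact h2

/-- the difference of the two ray integrals is independent of the vertex -/
lemma vertex_indep (b : ℝ) (l V1 V2 : ℂ) (hb : 0 < b) (hV1 : (V1 ^ 3).re < 0)
    (hV2 : (V2 ^ 3).re < 0) (s s' : ℂ) :
    RA b l s V1 - RA b l s V2 = RA b l s' V1 - RA b l s' V2 := by
  have hd : ∀ s : ℂ, HasDerivAt (fun s : ℂ => RA b l s V1 - RA b l s V2) 0 s := by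
    intro s
    have := (deriv_vertex b l s V1 hb hV1).sub (deriv_vertex b l s V2 hb hV2)
    convert! this using 1
    ring
  exact is_const_of_deriv_eq_zero (f := fun s : ℂ => RA b l s V1 - RA b l s V2)
    (fun s => (hd s).differentiableAt) (fun s => (hd s).deriv) s s'

/-- rotating the direction inside the upper valley -/
lemma dir_indep_up (b : ℝ) (l s V W : ℂ) (hb : 0 < b)
    (hV : 0 < V.re ∧ 0 < V.im ∧ V.re ^ 2 < 3 * V.im ^ 2)
    (hW : 0 < W.re ∧ 0 < W.im ∧ W.re ^ 2 < 3 * W.im ^ 2) : RA b l s V = RA b l s W := by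
  set S : Set ℂ := {z : ℂ | 0 < z.re ∧ 0 < z.im ∧ z.re < Real.sqrt 3 * z.im} with hS
  have h3 : Real.sqrt 3 ^ 2 = 3 := Real.sq_sqrt (by norm_num)
  have h3p : 0 < Real.sqrt 3 := Real.sqrt_pos.2 (by norm_num)
  have hmem : ∀ z : ℂ, 0 < z.re ∧ 0 < z.im ∧ z.re ^ 2 < 3 * z.im ^ 2 → z ∈ S := by
    rintro z ⟨h1, h2, h4⟩
    refine ⟨h1, h2, ?_⟩
    have : z.re ^ 2 < (Real.sqrt 3 * z.im) ^ 2 := by rw [mul_pow, h3]; exact h4
    exact lt_of_pow_lt_pow_left₀ 2 (by positivity) this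
  have hconv : Convex ℝ S := by
    rintro x ⟨hx1, hx2, hx3⟩ y ⟨hy1, hy2, hy3⟩ α β hα hβ hab
    have e1 : (α • x + β • y).re = α * x.re + β * y.re := by simp
    have e2 : (α • x + β • y).im = α * x.im + β * y.im := by simp
    rcases hα.eq_or_lt with h | h
    · have hb1 : β = 1 := by linarith
      subst h
      rw [hS, mem_ofPred_eq, e1, e2, hb1]
      simpa using ⟨hy1, hy2, hy3⟩
    · refine ⟨?_, ?_, ?_⟩
      · rw [e1]; have := mul_pos h hx1; have := mul_nonneg hβ hy1.le; linarith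
      · rw [e2]; have := mul_pos h hx2; have := mul_nonneg hβ hy2.le; linarith
      · rw [e1, e2]
        have := mul_lt_mul_of_pos_left hx3 h
        have := mul_le_mul_of_nonneg_left hy3.le hβ
        linarith
  have hcube : ∀ z ∈ S, (z ^ 3).re < 0 := by
    rintro z ⟨h1, h2, h4⟩
    have e : (z ^ 3).re = z.re * (z.re ^ 2 - 3 * z.im ^ 2) := by
      have : z ^ 3 = z * z * z := by ring
      rw [this]; simp only [Complex.mul_re, Complex.mul_im]; ring
    have h5 : z.re ^ 2 < 3 * z.im ^ 2 := by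
      have : z.re ^ 2 < (Real.sqrt 3 * z.im) ^ 2 := pow_lt_pow_left₀ h4 h1.le (by norm_num)
      rwa [mul_pow, h3] at this
    rw [e]
    exact mul_neg_of_pos_of_neg h1 (by linarith)
  have := hconv.norm_image_sub_le_of_norm_hasDerivWithin_le (𝕜 := ℂ) (f := fun V => RA b l s V)
    (f' := fun _ => 0) (C := 0)
    (fun z hz => (deriv_dir b l s z hb (hcube z hz)).hasDerivWithinAt) (fun z _ => by simp)
    (hmem W hW) (hmem V hV)
  simp only [zero_mul, norm_le_zero_iff, sub_eq_zero] at this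
  exact this

lemma fA_conj (b : ℝ) (t : ℂ) : fA b 0 ((starRingEnd ℂ) t) = (starRingEnd ℂ) (fA b 0 t) := by
  unfold fA
  rw [← Complex.exp_conj]
  simp

lemma RA_conj (b : ℝ) (V : ℂ) :
    RA b 0 0 ((starRingEnd ℂ) V) = (starRingEnd ℂ) (RA b 0 0 V) := by
  unfold RA
  rw [← integral_conj]
  refine integral_congr_ae (Eventually.of_forall fun r => ?_)
  simp only
  rw [map_mul, ← fA_conj]
  simp

lemma RA_omega (b : ℝ) (hb : 0 < b) : ∃ c : ℝ, 0 < c ∧
    RA b 0 0 ⟨1 / 2, Real.sqrt 3 / 2⟩ = (⟨1 / 2, Real.sqrt 3 / 2⟩ : ℂ) * c := by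
  set ω : ℂ := ⟨1 / 2, Real.sqrt 3 / 2⟩ with hω
  have h3 : Real.sqrt 3 ^ 2 = 3 := Real.sq_sqrt (by norm_num)
  have hω3 : ω ^ 3 = -1 := by
    have : ω ^ 3 = ω * ω * ω := by ring
    rw [this]
    apply Complex.ext
    · simp only [hω, Complex.mul_re, Complex.mul_im, Complex.neg_re, Complex.one_re]
      nlinarith
    · simp only [hω, Complex.mul_re, Complex.mul_im, Complex.neg_im, Complex.one_im]
      have h33 : Real.sqrt 3 ^ 3 = 3 * Real.sqrt 3 := by rw [pow_succ, h3]
      ring_nf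
      rw [h33]
      ring
  have hω3' : (ω ^ 3).re < 0 := by rw [hω3]; simp
  have hfun : ∀ r : ℝ, fA b 0 (0 + ω * r) * ω = ω * ((Real.exp (-b * r ^ 3) : ℝ) : ℂ) := by
    intro r
    unfold fA
    rw [mul_comm]
    congr 1
    rw [Complex.ofReal_exp]
    congr 1
    have : (0 + ω * (r : ℂ)) ^ 3 = ω ^ 3 * (r : ℂ) ^ 3 := by ring
    rw [this, hω3]
    push_cast
    ring
  have hint : IntegrableOn (fun r : ℝ => Real.exp (-b * r ^ 3)) (Ioi 0) := by
    have h1 := (int_f b 0 0 ω hb hω3').1.norm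
    refine IntegrableOn.congr_fun h1 (fun r _ => ?_) measurableSet_Ioi
    rw [hfun r, norm_mul, Complex.norm_real, Real.norm_of_nonneg (Real.exp_pos _).le]
    have : ‖ω‖ = 1 := by
      have h : ‖ω‖ ^ 3 = 1 := by rw [← norm_pow, hω3]; simp
      have h' : ‖ω‖ ^ 3 = 1 ^ 3 := by rw [h]; norm_num
      exact (pow_left_inj₀ (norm_nonneg _) zero_le_one (by norm_num)).1 h'
    rw [this, one_mul]
  refine ⟨∫ r in Ioi (0 : ℝ), Real.exp (-b * r ^ 3), ?_, ?_⟩
  · rw [setIntegral_pos_iff_support_of_nonneg_ae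
      (Eventually.of_forall fun r => (Real.exp_pos _).le) hint]
    have : Function.support (fun r : ℝ => Real.exp (-b * r ^ 3)) = univ := by
      ext r; simp [Real.exp_ne_zero]
    rw [this, univ_inter]
    simp
  · unfold RA
    have e : ((∫ r in Ioi (0 : ℝ), Real.exp (-b * r ^ 3) : ℝ) : ℂ)
        = ∫ r in Ioi (0 : ℝ), ((Real.exp (-b * r ^ 3) : ℝ) : ℂ) := (integral_ofReal (𝕜 := ℂ)).symm
    rw [e, ← integral_const_mul]
    exact integral_congr_ae (Eventually.of_forall fun r => hfun r)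

/-- the Airy function at the origin -/
lemma A0_ne_zero (b : ℝ) (V1 V2 : ℂ) (hb : 0 < b)
    (h1 : 0 < V1.re ∧ 0 < V1.im ∧ V1.re ^ 2 < 3 * V1.im ^ 2)
    (h2 : 0 < V2.re ∧ V2.im < 0 ∧ V2.re ^ 2 < 3 * V2.im ^ 2) :
    RA b 0 0 V1 - RA b 0 0 V2 ≠ 0 := by
  set ω : ℂ := ⟨1 / 2, Real.sqrt 3 / 2⟩ with hω
  have h3 : Real.sqrt 3 ^ 2 = 3 := Real.sq_sqrt (by norm_num)
  have h3p : 0 < Real.sqrt 3 := Real.sqrt_pos.2 (by norm_num)
  have hω' : 0 < ω.re ∧ 0 < ω.im ∧ ω.re ^ 2 < 3 * ω.im ^ 2 := by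
    refine ⟨by simp [hω], by simp only [hω]; positivity, ?_⟩
    simp only [hω]
    rw [div_pow, div_pow, h3]; norm_num
  have h2' : 0 < ((starRingEnd ℂ) V2).re ∧ 0 < ((starRingEnd ℂ) V2).im ∧
      ((starRingEnd ℂ) V2).re ^ 2 < 3 * ((starRingEnd ℂ) V2).im ^ 2 := by
    simp only [Complex.conj_re, Complex.conj_im]
    exact ⟨h2.1, by linarith [h2.2.1], by rw [neg_sq]; exact h2.2.2⟩
  obtain ⟨c, hc, hc'⟩ := RA_omega b hb
  have e1 : RA b 0 0 V1 = ω * c := by
    rw [dir_indep_up b 0 0 V1 ω hb h1 hω', hc']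
  have e2 : RA b 0 0 V2 = (starRingEnd ℂ) (ω * c) := by
    have : V2 = (starRingEnd ℂ) ((starRingEnd ℂ) V2) := by simp
    rw [this, RA_conj, dir_indep_up b 0 0 _ ω hb h2' hω', hc']
  rw [e1, e2]
  intro h
  have := congrArg Complex.im h
  simp only [Complex.sub_im, Complex.conj_im, Complex.mul_im, Complex.ofReal_im, Complex.ofReal_re,
    Complex.zero_im, hω] at this
  have h5 : Real.sqrt 3 * c = 0 := by linarith
  have := mul_pos h3p hc
  linarith

/-- decay in the parameter -/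
lemma decay_ray (b : ℝ) (l V : ℂ) (hb : 0 < b) (hV : (V ^ 3).re < 0) (hVre : 0 < V.re) :
    Tendsto (fun x : ℝ => RA b (l + x) 1 V) atTop (𝓝 0) ∧
    Tendsto (fun x : ℝ => RA1 b (l + x) 1 V) atTop (𝓝 0) := by
  obtain ⟨i0, i1, i2⟩ := int_f b l 1 V hb hV
  have hfac : ∀ x r : ℝ, fA b (l + x) (1 + V * r) = fA b l (1 + V * r)
      * Complex.exp (-(x : ℂ) * (1 + V * r)) := by
    intro x r
    unfold fA
    rw [← Complex.exp_add]
    congr 1; ring
  have hn : ∀ x r : ℝ, 0 ≤ x → 0 ≤ r → ‖Complex.exp (-(x : ℂ) * (1 + V * r))‖ ≤ Real.exp (-x) := by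
    intro x r hx hr
    rw [Complex.norm_exp, Real.exp_le_exp]
    have : (-(x : ℂ) * (1 + V * r)).re = -x * (1 + V.re * r) := by
      simp [Complex.mul_re]
    rw [this]
    have : 0 ≤ x * (V.re * r) := by positivity
    linarith
  have hexp : Tendsto (fun x : ℝ => Real.exp (-x)) atTop (𝓝 0) := Real.tendsto_exp_neg_atTop_nhds_zero
  constructor
  · refine squeeze_zero_norm' (a := fun x : ℝ => Real.exp (-x) *
      ∫ r in Ioi (0 : ℝ), ‖fA b l (1 + V * r) * V‖) ?_ ?_
    · filter_upwards [eventually_ge_atTop (0 : ℝ)] with x hx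
      unfold RA
      rw [← integral_const_mul]
      refine norm_integral_le_of_norm_le (i0.norm.const_mul _) ?_
      refine (ae_restrict_iff' measurableSet_Ioi).2 (Eventually.of_forall fun r hr => ?_)
      have hr' : (0 : ℝ) ≤ r := le_of_lt hr
      rw [hfac x r, norm_mul, norm_mul, norm_mul]
      calc _ ≤ ‖fA b l (1 + V * r)‖ * Real.exp (-x) * ‖V‖ := by
            have := hn x r hx hr'
            gcongr
        _ = _ := by ring
    · simpa using hexp.mul_const (∫ r in Ioi (0 : ℝ), ‖fA b l (1 + V * r) * V‖)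
  · refine squeeze_zero_norm' (a := fun x : ℝ => Real.exp (-x) *
      ∫ r in Ioi (0 : ℝ), ‖(1 + V * r) * fA b l (1 + V * r) * V‖) ?_ ?_
    · filter_upwards [eventually_ge_atTop (0 : ℝ)] with x hx
      unfold RA1
      rw [← integral_const_mul]
      refine norm_integral_le_of_norm_le (i1.norm.const_mul _) ?_
      refine (ae_restrict_iff' measurableSet_Ioi).2 (Eventually.of_forall fun r hr => ?_)
      have hr' : (0 : ℝ) ≤ r := le_of_lt hr
      rw [hfac x r, norm_mul, norm_mul, norm_mul, norm_mul, norm_mul]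
      calc _ ≤ ‖1 + V * r‖ * (‖fA b l (1 + V * r)‖ * Real.exp (-x)) * ‖V‖ := by
            have := hn x r hx hr'
            gcongr
        _ = _ := by ring
    · simpa using hexp.mul_const (∫ r in Ioi (0 : ℝ), ‖(1 + V * r) * fA b l (1 + V * r) * V‖)

/-- an entire solution of the scaled Airy equation that decays along the positive direction has no
zero with nonreal or nonnegative argument -/
lemma energy (b : ℝ) (hb : 0 < b) (A A1 A2 : ℂ → ℂ) (hA : ∀ l, HasDerivAt A (A1 l) l)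
    (hA1 : ∀ l, HasDerivAt A1 (A2 l) l) (hode : ∀ l, 3 * b * A2 l = l * A l)
    (hd : ∀ l, Tendsto (fun x : ℝ => A (l + x)) atTop (𝓝 0))
    (hd1 : ∀ l, Tendsto (fun x : ℝ => A1 (l + x)) atTop (𝓝 0))
    (h0 : A 0 ≠ 0) (l : ℂ) (hl : l.im ≠ 0 ∨ 0 ≤ l.re) : A l ≠ 0 := by
  intro hz
  have hb3 : (3 * (b : ℂ)) ≠ 0 := by
    have : (b : ℂ) ≠ 0 := by exact_mod_cast hb.ne'
    exact mul_ne_zero (by norm_num) this
  -- derivatives along the real direction
  have hg : ∀ x : ℝ, HasDerivAt (fun x : ℝ => A (l + x)) (A1 (l + x)) x := by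
    intro x
    have h2 : HasDerivAt (fun z : ℂ => l + z) 1 (x : ℂ) := (hasDerivAt_id (x : ℂ)).const_add l
    have h3 := HasDerivAt.comp (h₂ := A) (h := fun z : ℂ => l + z) (x : ℂ) (hA (l + x)) h2
    rw [mul_one] at h3
    exact h3.comp_ofReal
  have hg1 : ∀ x : ℝ, HasDerivAt (fun x : ℝ => A1 (l + x)) (A2 (l + x)) x := by
    intro x
    have h2 : HasDerivAt (fun z : ℂ => l + z) 1 (x : ℂ) := (hasDerivAt_id (x : ℂ)).const_add l
    have h3 := HasDerivAt.comp (h₂ := A1) (h := fun z : ℂ => l + z) (x : ℂ) (hA1 (l + x)) h2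
    rw [mul_one] at h3
    exact h3.comp_ofReal
  have hg2 : ∀ x : ℝ, A2 (l + x) = (l + x) * A (l + x) / (3 * b) := by
    intro x
    rw [eq_div_iff hb3, ← hode (l + x)]; ring
  -- the flux
  have hflux : ∀ x : ℝ, HasDerivAt (fun x : ℝ => A1 (l + x) * (starRingEnd ℂ) (A (l + x)))
      (A2 (l + x) * (starRingEnd ℂ) (A (l + x)) + A1 (l + x) * (starRingEnd ℂ) (A1 (l + x))) x := by
    intro x
    have h1 : HasDerivAt (fun x : ℝ => (starRingEnd ℂ) (A (l + x)))
        ((starRingEnd ℂ) (A1 (l + x))) x := by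
      have := (Complex.conjCLE.toContinuousLinearMap.hasFDerivAt
        (x := A (l + x))).comp_hasDerivAt x (hg x)
      exact this
    exact (hg1 x).mul h1
  have hval : ∀ x : ℝ, A2 (l + x) * (starRingEnd ℂ) (A (l + x))
      + A1 (l + x) * (starRingEnd ℂ) (A1 (l + x))
      = (((Complex.normSq (A (l + x)) / (3 * b) : ℝ)) : ℂ) * (l + x)
        + ((Complex.normSq (A1 (l + x)) : ℝ) : ℂ) := by
    intro x
    rw [hg2 x, Complex.mul_conj (A1 (l + x))]
    have : (l + x) * A (l + x) / (3 * b) * (starRingEnd ℂ) (A (l + x))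
      = (A (l + x) * (starRingEnd ℂ) (A (l + x))) / (3 * b) * (l + x) := by ring
    rw [this, Complex.mul_conj]
    push_cast
    ring
  have hlim : Tendsto (fun x : ℝ => A1 (l + x) * (starRingEnd ℂ) (A (l + x))) atTop (𝓝 0) := by
    have h1 : Tendsto (fun x : ℝ => (starRingEnd ℂ) (A (l + x))) atTop (𝓝 0) := by
      have h := (Complex.continuous_conj.tendsto (0 : ℂ)).comp (hd l)
      rw [map_zero] at h
      exact h
    simpa using (hd1 l).mul h1
  -- the zero set contains the ray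
  have hray : ∀ x : ℝ, 0 < x → A (l + x) = 0 := by
    -- abstract monotone argument
    have mono : ∀ (H H' : ℝ → ℝ), (∀ x, HasDerivAt H (H' x) x) → (∀ x, 0 ≤ x → 0 ≤ H' x) →
        H 0 = 0 → Tendsto H atTop (𝓝 0) → ∀ x, 0 < x → H' x = 0 := by
      intro H H' hH hpos hH0 hHlim x hx
      have hm : MonotoneOn H (Ici 0) := by
        refine monotoneOn_of_deriv_nonneg (convex_Ici 0)
          (fun y _ => (hH y).continuousAt.continuousWithinAt)
          (fun y _ => (hH y).differentiableAt.differentiableWithinAt) ?_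
        intro y hy
        rw [interior_Ici] at hy
        rw [(hH y).deriv]
        exact hpos y (le_of_lt hy)
      have hz' : ∀ y, 0 ≤ y → H y = 0 := by
        intro y hy
        apply le_antisymm
        · refine ge_of_tendsto hHlim ?_
          filter_upwards [eventually_ge_atTop y] with u hu
          exact hm hy (hy.trans hu) hu
        · rw [← hH0]; exact hm (mem_Ici.2 le_rfl) hy hy
      have he : H =ᶠ[𝓝 x] fun _ => 0 := by
        filter_upwards [eventually_gt_nhds hx] with u hu using hz' u (le_of_lt hu)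
      exact (hH x).unique ((hasDerivAt_const x (0 : ℝ)).congr_of_eventuallyEq he)
    intro x hx
    rcases eq_or_ne l.im 0 with him | him
    · have hre : 0 ≤ l.re := by
        rcases hl with h | h
        · exact absurd him h
        · exact h
      have h1 := mono (fun x => (A1 (l + x) * (starRingEnd ℂ) (A (l + x))).re)
        (fun x => (Complex.normSq (A (l + x)) / (3 * b)) * (l.re + x)
          + Complex.normSq (A1 (l + x)))
        (by
          intro y
          have h2 := (Complex.reCLM.hasFDerivAt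
            (x := A1 (l + y) * (starRingEnd ℂ) (A (l + y)))).comp_hasDerivAt y (hflux y)
          rw [hval y] at h2
          convert! h2 using 1
          simp only [Complex.reCLM_apply, Complex.add_re, Complex.re_ofReal_mul,
            Complex.ofReal_re])
        (by
          intro y hy
          have a1 := Complex.normSq_nonneg (A (l + y))
          have a2 := Complex.normSq_nonneg (A1 (l + y))
          have a3 : 0 ≤ l.re + y := add_nonneg hre hy
          positivity)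
        (by simp [hz])
        (by
          have h := (Complex.continuous_re.tendsto (0 : ℂ)).comp hlim
          rw [Complex.zero_re] at h
          exact h) x hx
      have a1 := Complex.normSq_nonneg (A (l + x))
      have a2 := Complex.normSq_nonneg (A1 (l + x))
      have a3 : 0 < l.re + x := by linarith
      have a4 : 0 ≤ (Complex.normSq (A (l + x)) / (3 * b)) * (l.re + x) := by positivity
      have a5 : (Complex.normSq (A (l + x)) / (3 * b)) * (l.re + x) = 0 := by linarith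
      rcases mul_eq_zero.1 a5 with h | h
      · rcases div_eq_zero_iff.1 h with h | h
        · exact Complex.normSq_eq_zero.1 h
        · exact absurd h (by positivity)
      · linarith
    · have h1 := mono (fun x => (A1 (l + x) * (starRingEnd ℂ) (A (l + x))).im * l.im)
        (fun x => (Complex.normSq (A (l + x)) / (3 * b)) * l.im * l.im)
        (by
          intro y
          have h2 := (Complex.imCLM.hasFDerivAt
            (x := A1 (l + y) * (starRingEnd ℂ) (A (l + y)))).comp_hasDerivAt y (hflux y)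
          rw [hval y] at h2
          have h3 := h2.mul_const l.im
          convert! h3 using 1
          simp only [Complex.imCLM_apply, Complex.add_im, Complex.im_ofReal_mul,
            Complex.ofReal_im, add_zero])
        (by
          intro y hy
          have a1 := Complex.normSq_nonneg (A (l + y))
          have : (Complex.normSq (A (l + y)) / (3 * b)) * l.im * l.im
            = (Complex.normSq (A (l + y)) / (3 * b)) * l.im ^ 2 := by ring
          rw [this]
          positivity)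
        (by simp [hz])
        (by
          have h := ((Complex.continuous_im.tendsto (0 : ℂ)).comp hlim).mul_const l.im
          rw [Complex.zero_im, zero_mul] at h
          exact h) x hx
      rcases mul_eq_zero.1 h1 with h | h
      · rcases mul_eq_zero.1 h with h | h
        · rcases div_eq_zero_iff.1 h with h | h
          · exact Complex.normSq_eq_zero.1 h
          · exact absurd h (by positivity)
        · exact absurd h him
      · exact absurd h him
  -- identity theorem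
  have han : AnalyticOnNhd ℂ A univ := by
    have hdiff : DifferentiableOn ℂ A univ := fun z _ => (hA z).differentiableAt.differentiableWithinAt
    exact hdiff.analyticOnNhd isOpen_univ
  have hfreq : ∃ᶠ z in 𝓝[≠] l, A z = 0 := by
    have ht : Tendsto (fun n : ℕ => l + (((1 / ((n : ℝ) + 1) : ℝ)) : ℂ)) atTop (𝓝[≠] l) := by
      refine tendsto_nhdsWithin_iff.2 ⟨?_, Eventually.of_forall fun n => ?_⟩
      · have h1 : Tendsto (fun n : ℕ => (((1 / ((n : ℝ) + 1) : ℝ)) : ℂ)) atTop (𝓝 ((0 : ℝ) : ℂ)) :=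
          (Complex.continuous_ofReal.tendsto 0).comp tendsto_one_div_add_atTop_nhds_zero_nat
        simpa using h1.const_add l
      · simp only [mem_compl_iff, mem_singleton_iff, add_eq_left]
        have : (0 : ℝ) < 1 / ((n : ℝ) + 1) := by positivity
        exact_mod_cast this.ne'
    refine ht.frequently (Eventually.frequently (Eventually.of_forall fun n => ?_))
    exact hray _ (by positivity)
  have := han.eqOn_zero_of_preconnected_of_frequently_eq_zero isPreconnected_univ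
    (mem_univ l) hfreq (mem_univ 0)
  exact h0 this

/-- The Airy type function (vertex `1`, two rays) does not vanish away from the negative axis. -/
theorem A_ne_zero (b : ℝ) (hb : 0 < b) (l V1 V2 : ℂ)
    (h1re : 0 < V1.re) (h1im : 0 < V1.im) (h13 : (V1 ^ 3).re < 0)
    (h2re : 0 < V2.re) (h2im : V2.im < 0) (h23 : (V2 ^ 3).re < 0)
    (hl : l.im ≠ 0 ∨ 0 ≤ l.re) (s : ℂ) : RA b l s V1 - RA b l s V2 ≠ 0 := by
  have cube : ∀ z : ℂ, 0 < z.re → (z ^ 3).re < 0 → z.re ^ 2 < 3 * z.im ^ 2 := by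
    intro z h1 h2
    have e : (z ^ 3).re = z.re * (z.re ^ 2 - 3 * z.im ^ 2) := by
      have : z ^ 3 = z * z * z := by ring
      rw [this]; simp only [Complex.mul_re, Complex.mul_im]; ring
    rw [e] at h2
    by_contra h
    have : 0 ≤ z.re * (z.re ^ 2 - 3 * z.im ^ 2) := mul_nonneg h1.le (by linarith)
    linarith
  rw [vertex_indep b l V1 V2 hb h13 h23 s 1]
  refine energy b hb (fun l => RA b l 1 V1 - RA b l 1 V2)
    (fun l => - RA1 b l 1 V1 - (- RA1 b l 1 V2)) (fun l => RA2 b l 1 V1 - RA2 b l 1 V2)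
    (fun l => (deriv_l b l 1 V1 hb h13).sub (deriv_l b l 1 V2 hb h23)) ?_ ?_ ?_ ?_ ?_ l hl
  · intro l
    have := (deriv_l1 b l 1 V1 hb h13).neg.sub (deriv_l1 b l 1 V2 hb h23).neg
    convert! this using 1
    ring
  · intro l
    have e1 := ode_ray b l 1 V1 hb h13
    have e2 := ode_ray b l 1 V2 hb h23
    linear_combination e1 - e2
  · intro l
    simpa using (decay_ray b l V1 hb h13 h1re).1.sub (decay_ray b l V2 hb h23 h2re).1
  · intro l
    simpa using (decay_ray b l V1 hb h13 h1re).2.neg.sub (decay_ray b l V2 hb h23 h2re).2.neg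
  · rw [vertex_indep b 0 V1 V2 hb h13 h23 1 0]
    exact A0_ne_zero b V1 V2 hb ⟨h1re, h1im, cube V1 h1re h13⟩ ⟨h2re, h2im, cube V2 h2re h23⟩

/-- The integral along the ray of direction `v` of `exp (a u ^ 2 + b u ^ 3)`. -/
def JR (a b v : ℂ) : ℂ := ∫ r in Ioi (0 : ℝ), Complex.exp (a * (v * r) ^ 2 + b * (v * r) ^ 3) * v

lemma sqrt_re_pos (w : ℂ) (hw : 0 < w.re) : 0 < (w ^ (1 / 2 : ℂ)).re := by
  have h1 : (1 / 2 : ℂ) = ((1 / 2 : ℝ) : ℂ) := by push_cast; ring
  rw [h1, Complex.cpow_ofReal_re]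
  have hw0 : w ≠ 0 := by rintro rfl; simp at hw
  have h2 : |w.arg| < Real.pi / 2 := (Complex.abs_arg_lt_pi_div_two_iff).2 (Or.inl hw)
  have h3 := abs_lt.1 h2
  have hpi := Real.pi_pos
  have h4 : 0 < Real.cos (w.arg * (1 / 2)) := by
    apply Real.cos_pos_of_mem_Ioo
    constructor <;> linarith [h3.1, h3.2]
  have h5 : 0 < ‖w‖ ^ (1 / 2 : ℝ) := Real.rpow_pos_of_pos (norm_pos_iff.2 hw0) _
  exact mul_pos h5 h4

lemma JR_gauss (a v : ℂ) (h : (a * v ^ 2).re < 0) :
    ∃ Y : ℂ, 0 < Y.re ∧ Y ^ 2 * (a * v ^ 2) = -(Real.pi / 4 : ℝ) ∧ JR a 0 v = v * Y := by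
  set w : ℂ := -(a * v ^ 2) with hw
  have hwre : 0 < w.re := by rw [hw, Complex.neg_re]; linarith
  have hw0 : w ≠ 0 := by rintro h0; rw [h0] at hwre; simp at hwre
  have hpi : (0 : ℝ) < Real.pi := Real.pi_pos
  refine ⟨(Real.pi / w) ^ (1 / 2 : ℂ) / 2, ?_, ?_, ?_⟩
  · have h1 : 0 < ((Real.pi : ℂ) / w).re := by
      rw [Complex.div_re]
      simp only [Complex.ofReal_re, Complex.ofReal_im, zero_mul, zero_div, add_zero]
      have := Complex.normSq_pos.2 hw0
      positivity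
    have h2 := sqrt_re_pos _ h1
    have h3 : ((Real.pi / w) ^ (1 / 2 : ℂ) / 2).re = ((Real.pi / w) ^ (1 / 2 : ℂ)).re / 2 := by
      simp
    rw [h3]; linarith
  · have h1 : ((Real.pi / w) ^ (1 / 2 : ℂ)) ^ 2 = Real.pi / w := by
      rw [← Complex.cpow_nat_mul]
      norm_num
    rw [div_pow, h1]
    have : a * v ^ 2 = -w := by rw [hw]; ring
    rw [this]
    push_cast
    field_simp
    ring
  · unfold JR
    rw [← integral_gaussian_complex_Ioi hwre, ← integral_const_mul]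
    refine integral_congr_ae (Eventually.of_forall fun r => ?_)
    have h5 : a * (v * (r : ℂ)) ^ 2 + 0 * (v * (r : ℂ)) ^ 3 = -w * (r : ℂ) ^ 2 := by rw [hw]; ring
    simp only
    rw [h5]
    ring

lemma gauss_pair (a V1 V2 : ℂ) (hv1 : 0 < V1.im) (hv2 : V2.im < 0) (ha : 0 < a.re)
    (h1 : (a * V1 ^ 2).re < 0) (h2 : (a * V2 ^ 2).re < 0) : JR a 0 V1 - JR a 0 V2 ≠ 0 := by
  obtain ⟨Y1, y1, z1, e1⟩ := JR_gauss a V1 h1
  obtain ⟨Y2, y2, z2, e2⟩ := JR_gauss a V2 h2
  intro h
  rw [e1, e2, sub_eq_zero] at h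
  have hpi : (0 : ℝ) < Real.pi := Real.pi_pos
  -- squares have positive real part
  have sq_pos' : ∀ Y V : ℂ, (a * V ^ 2).re < 0 → Y ^ 2 * (a * V ^ 2) = -(Real.pi / 4 : ℝ) →
      Y.im ^ 2 < Y.re ^ 2 := by
    intro Y V hV hY
    set c : ℂ := a * V ^ 2 with hc
    have hc0 : c ≠ 0 := by rintro h0; rw [h0] at hV; simp at hV
    have hY2 : Y ^ 2 = -(Real.pi / 4 : ℝ) / c := by rw [← hY]; field_simp
    have hre : (Y ^ 2).re = (Real.pi / 4) * (-c.re) / Complex.normSq c := by
      rw [hY2, Complex.div_re]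
      simp only [Complex.neg_re, Complex.ofReal_re, Complex.neg_im, Complex.ofReal_im, neg_zero,
        zero_mul, zero_div, add_zero]
      ring
    have hpos : 0 < (Y ^ 2).re := by
      rw [hre]
      have := Complex.normSq_pos.2 hc0
      have h3 : 0 < -c.re := by linarith
      positivity
    have : (Y ^ 2).re = Y.re ^ 2 - Y.im ^ 2 := by
      rw [sq, Complex.mul_re]; ring
    linarith
  have q1 := sq_pos' Y1 V1 h1 z1
  have q2 := sq_pos' Y2 V2 h2 z2
  set T : ℂ := V1 * Y1 with hT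
  have hTT : a * T ^ 2 = -(Real.pi / 4 : ℝ) := by rw [hT, ← z1]; ring
  have ha0 : a ≠ 0 := by rintro rfl; simp at ha
  have qT : T.re ^ 2 < T.im ^ 2 := by
    have hT2 : T ^ 2 = -(Real.pi / 4 : ℝ) / a := by rw [← hTT]; field_simp
    have hre : (T ^ 2).re = -((Real.pi / 4) * a.re / Complex.normSq a) := by
      rw [hT2, Complex.div_re]
      simp only [Complex.neg_re, Complex.ofReal_re, Complex.neg_im, Complex.ofReal_im, neg_zero,
        zero_mul, zero_div, add_zero]
      ring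
    have hpos : 0 < (Real.pi / 4) * a.re / Complex.normSq a := by
      have := Complex.normSq_pos.2 ha0
      positivity
    have : (T ^ 2).re = T.re ^ 2 - T.im ^ 2 := by
      rw [sq, Complex.mul_re]; ring
    linarith
  have im1 : V1.im * Complex.normSq Y1 = T.im * Y1.re - T.re * Y1.im := by
    rw [hT]; simp only [Complex.mul_im, Complex.mul_re, Complex.normSq_apply]; ring
  have im2 : V2.im * Complex.normSq Y2 = T.im * Y2.re - T.re * Y2.im := by
    rw [h]; simp only [Complex.mul_im, Complex.mul_re, Complex.normSq_apply]; ring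
  have n1 : 0 < Complex.normSq Y1 := by
    apply Complex.normSq_pos.2; rintro h0; rw [h0] at y1; simp at y1
  have n2 : 0 < Complex.normSq Y2 := by
    apply Complex.normSq_pos.2; rintro h0; rw [h0] at y2; simp at y2
  have lem : ∀ x y u v : ℝ, 0 < u → v ^ 2 < u ^ 2 → x ^ 2 < y ^ 2 → 0 < y → 0 < y * u - x * v := by
    intro x y u v hu hv hx hy
    have h3 : |v| < u := abs_lt_of_sq_lt_sq hv hu.le
    have h4 : |x| < y := abs_lt_of_sq_lt_sq hx hy.le
    have h5 : x * v ≤ |x| * |v| := by rw [← abs_mul]; exact le_abs_self _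
    have h6 : |x| * |v| < y * u := mul_lt_mul'' h4 h3 (abs_nonneg _) (abs_nonneg _)
    linarith
  rcases lt_trichotomy T.im 0 with ht | ht | ht
  · have := lem (-T.re) (-T.im) Y1.re Y1.im y1 q1 (by simpa using qT) (by linarith)
    have h5 : 0 < V1.im * Complex.normSq Y1 := mul_pos hv1 n1
    rw [im1] at h5
    nlinarith
  · rw [ht] at qT
    nlinarith [sq_nonneg T.re]
  · have := lem T.re T.im Y2.re Y2.im y2 q2 qT ht
    have h5 : V2.im * Complex.normSq Y2 < 0 := mul_neg_of_neg_of_pos hv2 n2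
    rw [im2] at h5
    linarith

/-- **Unified non-vanishing lemma, normal form.** -/
theorem JR_pair_normal (a V1 V2 : ℂ) (b : ℝ) (hb : 0 ≤ b)
    (h1re : 0 < V1.re) (h1im : 0 < V1.im) (h13 : (V1 ^ 3).re < 0)
    (h2re : 0 < V2.re) (h2im : V2.im < 0) (h23 : (V2 ^ 3).re < 0)
    (ha : a = 0 ∨ (0 < a.re ∧ (a * V1 ^ 2).re < 0 ∧ (a * V2 ^ 2).re < 0))
    (hne : a ≠ 0 ∨ b ≠ 0) : JR a b V1 - JR a b V2 ≠ 0 := by
  rcases hb.eq_or_lt with hb0 | hb0
  · subst hb0
    rcases ha with h | ⟨h1, h2, h3⟩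
    · exact absurd rfl (hne.resolve_left (not_not.2 h))
    · simpa using gauss_pair a V1 V2 h1im h2im h1 h2 h3
  · have hbc : (b : ℂ) ≠ 0 := by exact_mod_cast hb0.ne'
    set s : ℂ := a / (3 * b) with hs
    set l : ℂ := a ^ 2 / (3 * b) with hl
    have key : ∀ V : ℂ, RA b l s V = Complex.exp ((b : ℂ) * s ^ 3 - l * s) * JR a b V := by
      intro V
      unfold RA JR fA
      rw [← integral_const_mul]
      refine integral_congr_ae (Eventually.of_forall fun r => ?_)
      simp only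
      rw [← mul_assoc, ← Complex.exp_add]
      congr 2
      rw [hs, hl]
      field_simp
      ring
    have hl' : l.im ≠ 0 ∨ 0 ≤ l.re := by
      have e : l = (((1 / (3 * b) : ℝ)) : ℂ) * a ^ 2 := by
        rw [hl]; push_cast; field_simp
      have e1 : l.im = (1 / (3 * b)) * (2 * (a.re * a.im)) := by
        rw [e, Complex.im_ofReal_mul, sq, Complex.mul_im]; ring
      have e2 : l.re = (1 / (3 * b)) * (a.re ^ 2 - a.im ^ 2) := by
        rw [e, Complex.re_ofReal_mul, sq, Complex.mul_re]; ring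
      have hb3 : 0 < 1 / (3 * b) := by positivity
      rcases ha with h | ⟨h1, h2, h3⟩
      · right; rw [e2, h]; simp
      · rcases eq_or_ne a.im 0 with h4 | h4
        · right
          have h5 : (1 / (3 * b)) * (a.re ^ 2 - (0 : ℝ) ^ 2) = (1 / (3 * b)) * a.re ^ 2 := by ring
          rw [e2, h4, h5]; positivity
        · left; rw [e1]
          exact mul_ne_zero hb3.ne' (mul_ne_zero two_ne_zero (mul_ne_zero h1.ne' h4))
    have := A_ne_zero b hb0 l V1 V2 h1re h1im h13 h2re h2im h23 hl' s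
    rw [key V1, key V2, ← mul_sub] at this
    exact right_ne_zero_of_mul this

lemma JR_scale (a b κ V : ℂ) : JR a b (κ * V) = κ * JR (a * κ ^ 2) (b * κ ^ 3) V := by
  unfold JR
  rw [← integral_const_mul]
  refine integral_congr_ae (Eventually.of_forall fun r => ?_)
  simp only
  rw [mul_comm (Complex.exp _) (κ * V), mul_assoc, mul_comm V]
  congr 3
  ring

/-- **Unified non-vanishing lemma.**  `κ` is the bisector of the two valleys used. -/
theorem JR_pair (a b κ V1 V2 : ℂ) (β : ℝ) (hβ : 0 ≤ β) (hκ : κ ≠ 0) (hbκ : b * κ ^ 3 = β)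
    (h1re : 0 < V1.re) (h1im : 0 < V1.im) (h13 : (V1 ^ 3).re < 0)
    (h2re : 0 < V2.re) (h2im : V2.im < 0) (h23 : (V2 ^ 3).re < 0)
    (ha : a = 0 ∨ (0 < (a * κ ^ 2).re ∧ (a * κ ^ 2 * V1 ^ 2).re < 0 ∧
      (a * κ ^ 2 * V2 ^ 2).re < 0))
    (hne : a ≠ 0 ∨ b ≠ 0) : JR a b (κ * V1) - JR a b (κ * V2) ≠ 0 := by
  rw [JR_scale, JR_scale, ← mul_sub, hbκ]
  refine mul_ne_zero hκ (JR_pair_normal (a * κ ^ 2) V1 V2 β hβ h1re h1im h13 h2re h2im h23 ?_ ?_)
  · rcases ha with h | h
    · left; rw [h]; simp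
    · right; exact h
  · rcases hne with h | h
    · left; exact mul_ne_zero h (pow_ne_zero 2 hκ)
    · right
      have h2 : b * κ ^ 3 ≠ 0 := mul_ne_zero h (pow_ne_zero 3 hκ)
      rw [hbκ] at h2
      exact_mod_cast h2

end

end Pool.Agent.Shadow22
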