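import Mathlib

/-!
# Filling by a soft argument (MP_cdc1ee, helper22)

If two different one-saddle limits of the ratio `Q_{n,m+1} / (n Q_{n,m})` hold on two sets that
accumulate at `z1`, then zeros of the `Q_{n,m}` accumulate at `z1`.
-/

namespace Pool.Agent.Shadow22

open Filter Topology Polynomial

lemma multiset_norm_sum_sub_le (s : Multiset ℂ) (f g : ℂ → ℂ) (c : ℝ)
    (h : ∀ w ∈ s, ‖f w - g w‖ ≤ c) :
    ‖(s.map f).sum - (s.map g).sum‖ ≤ (Multiset.card s : ℝ) * c := by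
  induction s using Multiset.induction_on with
  | empty => simp
  | cons a s ih =>
    have h1 := h a (Multiset.mem_cons_self a s)
    have h2 := ih (fun w hw => h w (Multiset.mem_cons_of_mem hw))
    simp only [Multiset.map_cons, Multiset.sum_cons, Multiset.card_cons, Nat.cast_add, Nat.cast_one]
    have e : f a + (s.map f).sum - (g a + (s.map g).sum)
        = (f a - g a) + ((s.map f).sum - (s.map g).sum) := by ring
    rw [e]
    have := norm_add_le (f a - g a) ((s.map f).sum - (s.map g).sum)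
    nlinarith

/-- the logarithmic derivative of a polynomial is Lipschitz on a zero-free disc -/
lemma ratio_lipschitz (Q : ℂ[X]) (z1 : ℂ) (r : ℝ) (hr : 0 < r)
    (hfree : ∀ z ∈ Metric.ball z1 r, Q.eval z ≠ 0) (z z' : ℂ)
    (hz : z ∈ Metric.ball z1 (r / 2)) (hz' : z' ∈ Metric.ball z1 (r / 2)) :
    ‖Q.derivative.eval z / Q.eval z - Q.derivative.eval z' / Q.eval z'‖
      ≤ (Q.natDegree : ℝ) * (4 / r ^ 2 * ‖z - z'‖) := by
  have hsub : Metric.ball z1 (r / 2) ⊆ Metric.ball z1 r :=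
    Metric.ball_subset_ball (by linarith)
  have hsp : Q.Splits := IsAlgClosed.splits Q
  rw [hsp.eval_derivative_div_eval_of_ne_zero (hfree z (hsub hz)),
    hsp.eval_derivative_div_eval_of_ne_zero (hfree z' (hsub hz'))]
  have hcard : (Multiset.card Q.roots : ℝ) ≤ (Q.natDegree : ℝ) := by
    exact_mod_cast Polynomial.card_roots' Q
  have hc : 0 ≤ 4 / r ^ 2 * ‖z - z'‖ := by positivity
  refine (multiset_norm_sum_sub_le Q.roots _ _ (4 / r ^ 2 * ‖z - z'‖) ?_).trans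
    (mul_le_mul_of_nonneg_right hcard hc)
  intro w hw
  have hw0 : Q.eval w = 0 := (Polynomial.mem_roots'.1 hw).2
  have hwr : r ≤ dist w z1 := by
    by_contra hlt
    exact hfree w (Metric.mem_ball.2 (not_le.1 hlt)) hw0
  have hd : ∀ y ∈ Metric.ball z1 (r / 2), r / 2 ≤ ‖y - w‖ := by
    intro y hy
    have h1 : dist y z1 < r / 2 := hy
    have h2 := dist_triangle w y z1
    rw [dist_comm w y, dist_eq_norm y w] at h2
    linarith
  have d1 := hd z hz
  have d2 := hd z' hz'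
  have p1 : 0 < ‖z - w‖ := by linarith
  have p2 : 0 < ‖z' - w‖ := by linarith
  have n1 : z - w ≠ 0 := norm_pos_iff.1 p1
  have n2 : z' - w ≠ 0 := norm_pos_iff.1 p2
  have e : 1 / (z - w) - 1 / (z' - w) = (z' - z) / ((z - w) * (z' - w)) := by
    field_simp
    ring
  rw [e, norm_div, norm_mul, norm_sub_rev z' z]
  have h3 : r / 2 * (r / 2) ≤ ‖z - w‖ * ‖z' - w‖ := mul_le_mul d1 d2 (by linarith) p1.le
  rw [div_le_iff₀ (mul_pos p1 p2)]
  calc ‖z - z'‖ = 4 / r ^ 2 * ‖z - z'‖ * (r / 2 * (r / 2)) := by field_simp; ring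
    _ ≤ 4 / r ^ 2 * ‖z - z'‖ * (‖z - w‖ * ‖z' - w‖) := mul_le_mul_of_nonneg_left h3 hc

lemma natDegree_iterate_derivative_pow (P : ℂ[X]) (n m : ℕ) :
    (derivative^[m] (P ^ n)).natDegree ≤ n * P.natDegree := by
  refine (Polynomial.natDegree_iterate_derivative _ _).trans ?_
  exact (Nat.sub_le _ _).trans Polynomial.natDegree_pow_le

/-- **Filling theorem.** -/
theorem fill (P : ℂ[X]) (z1 : ℂ) (R1 R2 : ℂ → ℂ) (n m : ℕ → ℕ) (hn : ∀ k, 1 ≤ n k)
    (A B : Set ℂ) (hA : z1 ∈ closure A) (hB : z1 ∈ closure B)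
    (hRA : ∀ z ∈ A, Tendsto (fun k => (derivative^[m k + 1] (P ^ n k)).eval z
      / ((n k : ℂ) * (derivative^[m k] (P ^ n k)).eval z)) atTop (𝓝 (R1 z)))
    (hRB : ∀ z ∈ B, Tendsto (fun k => (derivative^[m k + 1] (P ^ n k)).eval z
      / ((n k : ℂ) * (derivative^[m k] (P ^ n k)).eval z)) atTop (𝓝 (R2 z)))
    (hc1 : ContinuousAt R1 z1) (hc2 : ContinuousAt R2 z1) (hne : R1 z1 ≠ R2 z1)
    (r : ℝ) (hr : 0 < r) :
    ∃ k, ∃ z ∈ Metric.ball z1 r, (derivative^[m k] (P ^ n k)).eval z = 0 := by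
  by_contra hcon
  push Not at hcon
  set L : ℝ := (P.natDegree : ℝ) * (4 / r ^ 2) with hL
  have hL0 : 0 ≤ L := by positivity
  -- Lipschitz bound for the normalised ratios
  have lip : ∀ k, ∀ z ∈ Metric.ball z1 (r / 2), ∀ z' ∈ Metric.ball z1 (r / 2),
      ‖(derivative^[m k + 1] (P ^ n k)).eval z / ((n k : ℂ) * (derivative^[m k] (P ^ n k)).eval z)
        - (derivative^[m k + 1] (P ^ n k)).eval z'
          / ((n k : ℂ) * (derivative^[m k] (P ^ n k)).eval z')‖ ≤ L * ‖z - z'‖ := by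
    intro k z hz z' hz'
    have hnk : (0 : ℝ) < (n k : ℝ) := by exact_mod_cast hn k
    have h1 := ratio_lipschitz (derivative^[m k] (P ^ n k)) z1 r hr (hcon k) z z' hz hz'
    have hdeg : ((derivative^[m k] (P ^ n k)).natDegree : ℝ) ≤ (n k : ℝ) * P.natDegree := by
      exact_mod_cast natDegree_iterate_derivative_pow P (n k) (m k)
    have hit : derivative^[m k + 1] (P ^ n k) = (derivative^[m k] (P ^ n k)).derivative :=
      Function.iterate_succ_apply' _ _ _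
    rw [hit]
    have e : ∀ y : ℂ, (derivative^[m k] (P ^ n k)).derivative.eval y
        / ((n k : ℂ) * (derivative^[m k] (P ^ n k)).eval y)
        = (1 / (n k : ℂ)) * ((derivative^[m k] (P ^ n k)).derivative.eval y
          / (derivative^[m k] (P ^ n k)).eval y) := by
      intro y
      rw [div_mul_div_comm, one_mul]
    rw [e, e, ← mul_sub, norm_mul]
    have hn1 : ‖(1 / (n k : ℂ))‖ = 1 / (n k : ℝ) := by
      rw [norm_div, norm_one, Complex.norm_natCast]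
    rw [hn1]
    calc 1 / (n k : ℝ) * _ ≤ 1 / (n k : ℝ) * (((derivative^[m k] (P ^ n k)).natDegree : ℝ)
          * (4 / r ^ 2 * ‖z - z'‖)) := mul_le_mul_of_nonneg_left h1 (by positivity)
      _ ≤ 1 / (n k : ℝ) * (((n k : ℝ) * P.natDegree) * (4 / r ^ 2 * ‖z - z'‖)) := by
          gcongr
      _ = L * ‖z - z'‖ := by rw [hL]; field_simp
  -- limits
  have lim : ∀ z ∈ A ∩ Metric.ball z1 (r / 2), ∀ z' ∈ B ∩ Metric.ball z1 (r / 2),
      ‖R1 z - R2 z'‖ ≤ L * ‖z - z'‖ := by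
    rintro z ⟨hzA, hz⟩ z' ⟨hzB, hz'⟩
    have ht := ((hRA z hzA).sub (hRB z' hzB)).norm
    exact le_of_tendsto ht (Eventually.of_forall fun k => lip k z hz z' hz')
  -- conclusion
  have hpos : 0 < ‖R1 z1 - R2 z1‖ := norm_pos_iff.2 (sub_ne_zero.2 hne)
  set ε : ℝ := ‖R1 z1 - R2 z1‖ / 4 with hε
  have hε0 : 0 < ε := by positivity
  obtain ⟨δ1, hδ1, h1⟩ := Metric.continuousAt_iff.1 hc1 ε hε0
  obtain ⟨δ2, hδ2, h2⟩ := Metric.continuousAt_iff.1 hc2 ε hε0
  set δ : ℝ := min (min δ1 δ2) (min (r / 2) (ε / (2 * (L + 1)))) with hδ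
  have hδ0 : 0 < δ := lt_min (lt_min hδ1 hδ2) (lt_min (by positivity) (by positivity))
  obtain ⟨z, hzA, hz⟩ := Metric.mem_closure_iff.1 hA δ hδ0
  obtain ⟨z', hzB, hz'⟩ := Metric.mem_closure_iff.1 hB δ hδ0
  rw [dist_comm] at hz hz'
  have b1 : δ ≤ δ1 := (min_le_left _ _).trans (min_le_left _ _)
  have b2 : δ ≤ δ2 := (min_le_left _ _).trans (min_le_right _ _)
  have b3 : δ ≤ r / 2 := (min_le_right _ _).trans (min_le_left _ _)
  have b4 : δ ≤ ε / (2 * (L + 1)) := (min_le_right _ _).trans (min_le_right _ _)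
  have k1 := h1 (lt_of_lt_of_le hz b1)
  have k2 := h2 (lt_of_lt_of_le hz' b2)
  have k3 := lim z ⟨hzA, Metric.mem_ball.2 (lt_of_lt_of_le hz b3)⟩ z'
    ⟨hzB, Metric.mem_ball.2 (lt_of_lt_of_le hz' b3)⟩
  rw [dist_eq_norm] at k1 k2 hz hz'
  have k4 : ‖z - z'‖ ≤ 2 * δ := by
    calc ‖z - z'‖ = ‖(z - z1) - (z' - z1)‖ := by congr 1; ring
      _ ≤ ‖z - z1‖ + ‖z' - z1‖ := norm_sub_le _ _
      _ ≤ 2 * δ := by linarith
  have k5 : L * ‖z - z'‖ ≤ ε := by
    have h3 : L * ‖z - z'‖ ≤ (L + 1) * (2 * δ) :=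
      mul_le_mul (by linarith) k4 (norm_nonneg _) (by linarith)
    have h4 : (L + 1) * (2 * δ) ≤ (L + 1) * (2 * (ε / (2 * (L + 1)))) := by
      apply mul_le_mul_of_nonneg_left _ (by linarith)
      linarith
    have h5 : (L + 1) * (2 * (ε / (2 * (L + 1)))) = ε := by
      have : L + 1 ≠ 0 := by linarith
      field_simp
    linarith
  have k6 : ‖R1 z1 - R2 z1‖ ≤ ‖R1 z - R1 z1‖ + ‖R1 z - R2 z'‖ + ‖R2 z' - R2 z1‖ := by
    have e : R1 z1 - R2 z1 = -(R1 z - R1 z1) + (R1 z - R2 z') + (R2 z' - R2 z1) := by ring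
    rw [e]
    calc _ ≤ ‖-(R1 z - R1 z1) + (R1 z - R2 z')‖ + ‖R2 z' - R2 z1‖ := norm_add_le _ _
      _ ≤ ‖-(R1 z - R1 z1)‖ + ‖R1 z - R2 z'‖ + ‖R2 z' - R2 z1‖ := by
          gcongr; exact norm_add_le _ _
      _ = _ := by rw [norm_neg]
  have k7 : ‖R1 z1 - R2 z1‖ = 4 * ε := by rw [hε]; ring
  linarith

end Pool.Agent.Shadow22
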